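import Pool.Agent.Helper37.BP.Defs

/-! Part INNER of helper37 (MP_6f6997_an): the inner inequality from `LqEP`, given the statements
of the parts DUALA, PIETSCH, CLAIMB and LPB. -/

open MeasureTheory
open scoped ENNReal NNReal

set_option maxSynthPendingDepth 3

namespace Pool.Agent.Helper72.BAP

open Pool.Agent.BAPp (sgn weakNorm gNorm iNorm incl FiniteRank)
open Pool.Agent.Helper37.BP

/-- the property of functionals used in DUALA / PIETSCH -/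
def Sub (p q : ℝ) {X : Type} [NormedAddCommGroup X] [NormedSpace ℝ X] (E : Submodule ℝ X)
    (Λ : (X →L[ℝ] E) →ₗ[ℝ] ℝ) : Prop :=
  ∀ (n : ℕ) (xs : Fin n → (X →L[ℝ] ℝ)) (ys : Fin n → E), ∑ k, ‖xs k‖ ^ p ≤ 1 →
    (∀ f : X →L[ℝ] ℝ, ‖f‖ ≤ 1 → ∑ k, |f (ys k)| ^ q ≤ 1) →
    Λ (∑ k, (xs k).smulRight (ys k)) ≤ 1

/-- statement of DUALA -/
def SDualA : Prop :=
  ∀ (p q : ℝ) (_ : p.HolderConjugate q) {X : Type} [NormedAddCommGroup X]
    [NormedSpace ℝ X] (E : Submodule ℝ X) [FiniteDimensional ℝ E] (S : X →L[ℝ] E),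
    ∃ Λ : (X →L[ℝ] E) →ₗ[ℝ] ℝ, Sub p q E Λ ∧
      gNorm p (E.subtypeL ∘L S) ≤ ENNReal.ofReal (Λ S)

/-- statement of PIETSCH -/
def SPietsch : Prop :=
  ∀ (p q : ℝ) (_ : p.HolderConjugate q) {X : Type} [NormedAddCommGroup X]
    [NormedSpace ℝ X] (E : Submodule ℝ X) [FiniteDimensional ℝ E]
    (Λ : (X →L[ℝ] E) →ₗ[ℝ] ℝ) (_ : Sub p q E Λ) (ε : ℝ) (_ : 0 < ε),
    ∃ (M : ℕ) (f : Fin M → (X →L[ℝ] ℝ)) (w : Fin M → ℝ), (∀ j, ‖f j‖ ≤ 1) ∧ (∀ j, 0 ≤ w j) ∧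
      ∑ j, w j = 1 ∧ ∀ (x : X →L[ℝ] ℝ) (y : E),
        |Λ (x.smulRight y)| ≤ (1 + ε) * ‖x‖ * (∑ j, w j * |f j y| ^ q) ^ (1 / q)

/-- statement of CLAIMB -/
def SClaimB : Prop :=
  ∀ {X F : Type} [NormedAddCommGroup X] [NormedSpace ℝ X] [NormedAddCommGroup F]
    [NormedSpace ℝ F] [FiniteDimensional ℝ F] (m : ℕ) (s : Fin m → F)
    (xs : Fin m → (X →L[ℝ] ℝ)) (c : ℝ)
    (_ : ∀ u : F →L[ℝ] X, ‖u‖ ≤ 1 → |∑ k, xs k (u (s k))| ≤ c)
    (R : F →ₗ[ℝ] (X →L[ℝ] ℝ) →ₗ[ℝ] ℝ) (κ : ℝ) (_ : 0 ≤ κ)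
    (_ : ∀ s x, |R s x| ≤ κ * ‖x‖ * ‖s‖),
    |∑ k, R (s k) (xs k)| ≤ κ * c

/-- statement of LPB -/
def SLpb : Prop :=
  ∀ (p q : ℝ) (_ : p.HolderConjugate q) [Fact (1 ≤ ENNReal.ofReal p)] {X Ω : Type}
    [NormedAddCommGroup X] [NormedSpace ℝ X] [MeasurableSpace Ω] (μ : Measure Ω)
    [IsProbabilityMeasure μ] (A : X →L[ℝ] Lp ℝ ∞ μ) (n : ℕ) (b : Fin n → X) (lam : ℝ)
    (_ : 0 ≤ lam)
    (_ : ∀ t : Fin n → ℝ, ‖∑ j, t j • b j‖ ≤ lam * (∑ j, |t j| ^ q) ^ (1 / q)),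
    ∑ j, ‖incl μ (ENNReal.ofReal p) (A (b j))‖ ^ p ≤ (lam * ‖A‖) ^ p

section main

variable {X : Type} [NormedAddCommGroup X] [NormedSpace ℝ X]

/-- The key estimate for one factorisation. -/
theorem key (hP : SPietsch) (hC : SClaimB) (hL : SLpb) (p q : ℝ) (hpq : p.HolderConjugate q)
    [Fact (1 ≤ ENNReal.ofReal p)] (lam : ℝ) (hlam : 1 ≤ lam) (h : LqEP q lam X)
    (E : Submodule ℝ X) [FiniteDimensional ℝ E] (S' : X →L[ℝ] E)
    (Λ : (X →L[ℝ] E) →ₗ[ℝ] ℝ) (hΛ : Sub p q E Λ)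
    {Ω : Type} [MeasurableSpace Ω] (μ : Measure Ω) [IsProbabilityMeasure μ]
    (A : X →L[ℝ] Lp ℝ ∞ μ) (B : Lp ℝ (ENNReal.ofReal p) μ →L[ℝ] ((X →L[ℝ] ℝ) →L[ℝ] ℝ))
    (hAB : ∀ (y : X) (f : X →L[ℝ] ℝ), f (S' y : X) = B (incl μ (ENNReal.ofReal p) (A y)) f)
    (ε : ℝ) (hε : 0 < ε) : Λ S' ≤ (1 + ε) * (lam * (‖A‖ * ‖B‖)) := by
  classical
  have hq1 : 1 < q := hpq.symm.lt
  have hp1 : 1 < p := hpq.lt
  have hq0 : 0 < q := by linarith
  have hp0 : 0 < p := by linarith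
  have : Fact (1 ≤ ENNReal.ofReal q) := ⟨by
    rw [← ENNReal.ofReal_one]
    exact ENNReal.ofReal_le_ofReal hq1.le⟩
  obtain ⟨M, f, w, hf, hw0, hw1, hpie⟩ := hP p q hpq E Λ hΛ ε hε
  set Q : ℝ≥0∞ := ENNReal.ofReal q with hQ
  have hQr : Q.toReal = q := ENNReal.toReal_ofReal hq0.le
  -- the map `J0`
  let J0 : E →ₗ[ℝ] (Fin M → ℝ) := LinearMap.pi (fun j => (w j) ^ (1 / q) • ((f j : X →ₗ[ℝ] ℝ) ∘ₗ E.subtype))
  have hJ0 : ∀ (y : E) (j : Fin M), J0 y j = (w j) ^ (1 / q) * f j (y : X) := fun y j => rfl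
  let F' : Submodule ℝ (Fin M → ℝ) := LinearMap.range J0
  let eL : PiLp Q (fun _ : Fin M => ℝ) ≃ₗ[ℝ] (Fin M → ℝ) := WithLp.linearEquiv Q ℝ (Fin M → ℝ)
  let F : Submodule ℝ (PiLp Q (fun _ : Fin M => ℝ)) := F'.comap (eL : PiLp Q (fun _ : Fin M => ℝ) →ₗ[ℝ] (Fin M → ℝ))
  have hnorm : ∀ s : PiLp Q (fun _ : Fin M => ℝ), ‖s‖ = (∑ j, |s j| ^ q) ^ (1 / q) := by
    intro s
    rw [PiLp.norm_eq_sum (by rw [hQr]; exact hq0), hQr]
    rfl
  have hmem : ∀ y : E, eL.symm (J0 y) ∈ F := by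
    intro y
    show eL (eL.symm (J0 y)) ∈ F'
    rw [LinearEquiv.apply_symm_apply]
    exact LinearMap.mem_range_self J0 y
  let J : E →ₗ[ℝ] F := LinearMap.codRestrict F ((eL.symm : (Fin M → ℝ) →ₗ[ℝ] PiLp Q (fun _ : Fin M => ℝ)) ∘ₗ J0) hmem
  have hJn : ∀ y : E, ‖J y‖ = (∑ j, w j * |f j y| ^ q) ^ (1 / q) := by
    intro y
    have h1 : ‖J y‖ = ‖eL.symm (J0 y)‖ := rfl
    rw [h1, hnorm]
    congr 1
    apply Finset.sum_congr rfl
    intro j _
    have h2 : (eL.symm (J0 y)) j = (w j) ^ (1 / q) * f j (y : X) := rfl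
    rw [h2, abs_mul, Real.mul_rpow (abs_nonneg _) (abs_nonneg _),
      abs_of_nonneg (Real.rpow_nonneg (hw0 j) _), ← Real.rpow_mul (hw0 j), one_div,
      inv_mul_cancel₀ hq0.ne', Real.rpow_one]
  have hJs : Function.Surjective J := by
    intro s
    obtain ⟨y, hy⟩ := s.2
    refine ⟨y, Subtype.ext ?_⟩
    show eL.symm (J0 y) = (s : PiLp Q (fun _ : Fin M => ℝ))
    rw [hy]
    exact LinearEquiv.symm_apply_apply eL _
  obtain ⟨τ, hτ⟩ := J.exists_rightInverse_of_surjective (LinearMap.range_eq_top.2 hJs)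
  have hτ' : ∀ s, J (τ s) = s := fun s => LinearMap.congr_fun hτ s
  -- the bilinear form
  let R : F →ₗ[ℝ] (X →L[ℝ] ℝ) →ₗ[ℝ] ℝ := LinearMap.mk₂ ℝ (fun s x => Λ (x.smulRight (τ s)))
    (by
      intro s s' x
      rw [← map_add]
      congr 1
      ext v
      simp)
    (by
      intro c s x
      rw [← map_smul]
      congr 1
      ext v
      simp [smul_smul, mul_comm])
    (by
      intro s x x'
      rw [← map_add]
      congr 1
      ext v
      simp [add_smul])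
    (by
      intro c s x
      rw [← map_smul]
      congr 1
      ext v
      simp [smul_smul])
  have hRdef : ∀ s x, R s x = Λ (x.smulRight (τ s)) := fun s x => rfl
  have hR : ∀ s x, |R s x| ≤ (1 + ε) * ‖x‖ * ‖s‖ := by
    intro s x
    rw [hRdef]
    have h1 := hpie x (τ s)
    rw [← hJn (τ s), hτ' s] at h1
    exact h1
  have hRJ : ∀ (y : E) (x : X →L[ℝ] ℝ), Λ (x.smulRight y) = R (J y) x := by
    intro y x
    rw [hRdef]
    have h1 := hpie x (y - τ (J y))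
    rw [← hJn, map_sub, hτ', sub_self, norm_zero, mul_zero] at h1
    have h2 : Λ (x.smulRight (y - τ (J y))) = 0 := abs_eq_zero.1 (le_antisymm h1 (abs_nonneg _))
    have h3 : x.smulRight (y - τ (J y)) = x.smulRight y - x.smulRight (τ (J y)) := by
      ext v
      simp [smul_sub]
    rw [h3, map_sub] at h2
    linarith
  -- the basis representation
  let bs := Module.finBasis ℝ E
  set m := Module.finrank ℝ E with hm
  let co : Fin m → (E →L[ℝ] ℝ) := fun k => LinearMap.toContinuousLinearMap (bs.coord k)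
  let xs : Fin m → (X →L[ℝ] ℝ) := fun k => (co k).comp S'
  have hrep : ∀ v : X, S' v = ∑ k, xs k v • bs k := by
    intro v
    exact (bs.sum_repr (S' v)).symm
  have hS' : S' = ∑ k, (xs k).smulRight (bs k) := by
    ext v
    rw [hrep v]
    simp [sum_apply]
  have hΛS : Λ S' = ∑ k, R (J (bs k)) (xs k) := by
    conv_lhs => rw [hS']
    rw [map_sum]
    exact Finset.sum_congr rfl fun k _ => hRJ _ _
  -- the bound for operators `u : F → X`
  have hc : ∀ u : F →L[ℝ] X, ‖u‖ ≤ 1 → |∑ k, xs k (u (J (bs k)))| ≤ lam * (‖A‖ * ‖B‖) := by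
    intro u hu
    have hmem' : ∀ s : F', eL.symm (s : Fin M → ℝ) ∈ F := by
      intro s
      show eL (eL.symm (s : Fin M → ℝ)) ∈ F'
      rw [LinearEquiv.apply_symm_apply]
      exact s.2
    let e' : F' →ₗ[ℝ] F := LinearMap.codRestrict F
      ((eL.symm : (Fin M → ℝ) →ₗ[ℝ] PiLp Q (fun _ : Fin M => ℝ)) ∘ₗ F'.subtype) hmem'
    obtain ⟨b, hb1, hb2⟩ := h M F' ((u : F →ₗ[ℝ] X) ∘ₗ e') (by
      intro s
      have h1 : ‖u (e' s)‖ ≤ ‖u‖ * ‖e' s‖ := u.le_opNorm _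
      have h2 : ‖e' s‖ = (∑ j, |(s : Fin M → ℝ) j| ^ q) ^ (1 / q) := by
        have h3 : ‖e' s‖ = ‖eL.symm (s : Fin M → ℝ)‖ := rfl
        rw [h3, hnorm]
        rfl
      show ‖u (e' s)‖ ≤ _
      rw [← h2]
      calc ‖u (e' s)‖ ≤ ‖u‖ * ‖e' s‖ := h1
        _ ≤ 1 * ‖e' s‖ := mul_le_mul_of_nonneg_right hu (norm_nonneg _)
        _ = ‖e' s‖ := one_mul _)
    have hu1 : ∀ y : E, u (J y) = ∑ j, ((w j) ^ (1 / q) * f j (y : X)) • b j := by
      intro y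
      have h1 := hb1 ⟨J0 y, LinearMap.mem_range_self J0 y⟩
      exact h1
    have hsum : ∑ k, xs k (u (J (bs k))) =
        ∑ j, (w j) ^ (1 / q) * B (incl μ (ENNReal.ofReal p) (A (b j))) (f j) := by
      have h1 : ∀ k, xs k (u (J (bs k))) = ∑ j, ((w j) ^ (1 / q) * f j (bs k : X)) * xs k (b j) := by
        intro k
        rw [hu1, map_sum]
        exact Finset.sum_congr rfl fun j _ => by rw [map_smul, smul_eq_mul]
      simp only [h1]
      rw [Finset.sum_comm]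
      refine Finset.sum_congr rfl fun j _ => ?_
      rw [← hAB (b j) (f j), hrep (b j)]
      rw [Submodule.coe_sum, map_sum, Finset.mul_sum]
      refine Finset.sum_congr rfl fun k _ => ?_
      rw [Submodule.coe_smul, map_smul, smul_eq_mul]
      ring
    rw [hsum]
    have hl := hL p q hpq μ A M b lam (by linarith) hb2
    have h2 : ∀ j, |(w j) ^ (1 / q) * B (incl μ (ENNReal.ofReal p) (A (b j))) (f j)| ≤
        ‖B‖ * ((w j) ^ (1 / q) * ‖incl μ (ENNReal.ofReal p) (A (b j))‖) := by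
      intro j
      rw [abs_mul, abs_of_nonneg (Real.rpow_nonneg (hw0 j) _)]
      have h3 : |B (incl μ (ENNReal.ofReal p) (A (b j))) (f j)| ≤
          ‖B‖ * ‖incl μ (ENNReal.ofReal p) (A (b j))‖ := by
        calc |B (incl μ (ENNReal.ofReal p) (A (b j))) (f j)|
            ≤ ‖B (incl μ (ENNReal.ofReal p) (A (b j)))‖ * ‖f j‖ :=
              (B (incl μ (ENNReal.ofReal p) (A (b j)))).le_opNorm (f j)
          _ ≤ ‖B (incl μ (ENNReal.ofReal p) (A (b j)))‖ * 1 :=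
              mul_le_mul_of_nonneg_left (hf j) (norm_nonneg _)
          _ ≤ ‖B‖ * ‖incl μ (ENNReal.ofReal p) (A (b j))‖ := by
              rw [mul_one]
              exact B.le_opNorm _
      calc (w j) ^ (1 / q) * |B (incl μ (ENNReal.ofReal p) (A (b j))) (f j)|
          ≤ (w j) ^ (1 / q) * (‖B‖ * ‖incl μ (ENNReal.ofReal p) (A (b j))‖) :=
            mul_le_mul_of_nonneg_left h3 (Real.rpow_nonneg (hw0 j) _)
        _ = _ := by ring
    have h4 : ∑ j, (w j) ^ (1 / q) * ‖incl μ (ENNReal.ofReal p) (A (b j))‖ ≤ lam * ‖A‖ := by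
      have h5 := Real.inner_le_Lp_mul_Lq (Finset.univ : Finset (Fin M)) (fun j => (w j) ^ (1 / q))
        (fun j => ‖incl μ (ENNReal.ofReal p) (A (b j))‖) hpq.symm
      have h60 : ∀ j, |(w j) ^ (1 / q)| ^ q = w j := by
        intro j
        rw [abs_of_nonneg (Real.rpow_nonneg (hw0 j) _), ← Real.rpow_mul (hw0 j), one_div,
          inv_mul_cancel₀ hq0.ne', Real.rpow_one]
      have h6 : ∑ j, |(w j) ^ (1 / q)| ^ q = 1 := by
        simp only [h60]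
        exact hw1
      rw [h6, Real.one_rpow, one_mul] at h5
      refine h5.trans ?_
      have h7 : (∑ j, |‖incl μ (ENNReal.ofReal p) (A (b j))‖| ^ p) ^ (1 / p) ≤
          ((lam * ‖A‖) ^ p) ^ (1 / p) := by
        apply Real.rpow_le_rpow
        · exact Finset.sum_nonneg fun j _ => Real.rpow_nonneg (abs_nonneg _) _
        · simpa only [abs_norm] using hl
        · positivity
      refine h7.trans (le_of_eq ?_)
      rw [← Real.rpow_mul (by positivity), mul_one_div, div_self hp0.ne', Real.rpow_one]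
    calc |∑ j, (w j) ^ (1 / q) * B (incl μ (ENNReal.ofReal p) (A (b j))) (f j)|
        ≤ ∑ j, |(w j) ^ (1 / q) * B (incl μ (ENNReal.ofReal p) (A (b j))) (f j)| :=
          Finset.abs_sum_le_sum_abs _ _
      _ ≤ ∑ j, ‖B‖ * ((w j) ^ (1 / q) * ‖incl μ (ENNReal.ofReal p) (A (b j))‖) :=
          Finset.sum_le_sum fun j _ => h2 j
      _ = ‖B‖ * ∑ j, (w j) ^ (1 / q) * ‖incl μ (ENNReal.ofReal p) (A (b j))‖ := by
          rw [Finset.mul_sum]
      _ ≤ ‖B‖ * (lam * ‖A‖) := mul_le_mul_of_nonneg_left h4 (norm_nonneg _)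
      _ = lam * (‖A‖ * ‖B‖) := by ring
  have hfin := hC m (fun k => J (bs k)) xs (lam * (‖A‖ * ‖B‖)) hc R (1 + ε) (by linarith) hR
  rw [← hΛS] at hfin
  exact (le_abs_self _).trans hfin

/-- Part INNER. -/
theorem inner_of (hD : SDualA) (hP : SPietsch) (hC : SClaimB) (hL : SLpb)
    (p q : ℝ) (hpq : p.HolderConjugate q) [Fact (1 ≤ ENNReal.ofReal p)]
    (lam : ℝ) (hlam : 1 ≤ lam) (h : LqEP q lam X) (S : X →L[ℝ] X) (hS : FiniteRank S) :
    gNorm p S ≤ ENNReal.ofReal lam * iNorm p S := by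
  set E : Submodule ℝ X := LinearMap.range (S : X →ₗ[ℝ] X) with hE
  have : FiniteDimensional ℝ E := hS
  let S' : X →L[ℝ] E := S.codRestrict E (fun x => LinearMap.mem_range_self _ x)
  have hSS : E.subtypeL ∘L S' = S := by
    ext x
    rfl
  obtain ⟨Λ, hΛ, hg⟩ := hD p q hpq E S'
  rw [hSS] at hg
  refine hg.trans ?_
  have hl0 : ENNReal.ofReal lam ≠ 0 := by
    rw [Ne, ENNReal.ofReal_eq_zero]
    linarith
  have hl1 : ENNReal.ofReal lam ≠ ⊤ := ENNReal.ofReal_ne_top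
  have hdiv : ENNReal.ofReal (Λ S') / ENNReal.ofReal lam ≤ iNorm p S := by
    unfold iNorm
    refine le_iInf fun Ω => le_iInf fun _ => le_iInf fun μ => le_iInf fun _ => le_iInf fun A =>
      le_iInf fun B => le_iInf fun hAB => ?_
    rw [ENNReal.div_le_iff hl0 hl1, ← ENNReal.ofReal_mul (by positivity)]
    refine ENNReal.ofReal_le_ofReal ?_
    have hk : ∀ ε : ℝ, 0 < ε → Λ S' ≤ (1 + ε) * (lam * (‖A‖ * ‖B‖)) := fun ε hε =>
      key hP hC hL p q hpq lam hlam h E S' Λ hΛ μ A B (fun y f => hAB y f) ε hε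
    have h1 : Λ S' ≤ lam * (‖A‖ * ‖B‖) := by
      refine le_of_forall_pos_le_add fun δ hδ => ?_
      set Z := lam * (‖A‖ * ‖B‖) with hZ
      have hZ0 : 0 ≤ Z := by positivity
      have h2 := hk (δ / (Z + 1)) (by positivity)
      have h3 : δ / (Z + 1) * Z ≤ δ := by
        rw [div_mul_eq_mul_div, div_le_iff₀ (by positivity)]
        nlinarith
      linarith
    linarith
  rw [ENNReal.div_le_iff hl0 hl1] at hdiv
  rwa [mul_comm] at hdiv

end main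

end Pool.Agent.Helper72.BAP
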