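import Pool.Agent.Helper37.BP.Defs2

/-! Part GG of helper37's second batch (MP_6f6997_an): `gTop ≤ gNorm p`. -/

open MeasureTheory
open scoped ENNReal NNReal

set_option maxSynthPendingDepth 3

namespace Pool.Agent.Helper72.BAP

open Pool.Agent.BAPp (sgn weakNorm gNorm FiniteRank)
open Pool.Agent.Helper37.BP

/-- Part GG. -/
theorem gTop_le_gNorm (p q : ℝ) (hpq : p.HolderConjugate q) {Y X : Type} [NormedAddCommGroup Y]
    [NormedSpace ℝ Y] [NormedAddCommGroup X] [NormedSpace ℝ X] (T : Y →L[ℝ] X) :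
    gTop T ≤ gNorm p T := by
  have hqeq : p / (p - 1) = q := hpq.conjugate_eq.symm
  unfold gNorm
  refine le_iInf fun n => le_iInf fun ys => le_iInf fun xs => le_iInf fun hT => ?_
  rw [hqeq]
  have hT' : ∀ y, T y = ∑ k, (‖ys k‖⁻¹ • ys k) y • (‖ys k‖ • xs k) := by
    intro y
    rw [hT y]
    refine Finset.sum_congr rfl fun k _ => ?_
    rcases eq_or_ne (ys k) 0 with h0 | h0
    · rw [h0]; simp
    · have h1 : ‖ys k‖ ≠ 0 := norm_ne_zero_iff.2 h0
      rw [smul_smul]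
      congr 1
      show _ = ‖ys k‖⁻¹ * ys k y * ‖ys k‖
      field_simp
  have h1 : gTop T ≤ (⨆ k, ENNReal.ofReal ‖‖ys k‖⁻¹ • ys k‖) *
      weakNorm 1 (fun k => ‖ys k‖ • xs k) := by
    unfold gTop
    exact iInf_le_of_le n (iInf_le_of_le (fun k => ‖ys k‖⁻¹ • ys k)
      (iInf_le_of_le (fun k => ‖ys k‖ • xs k) (iInf_le_of_le hT' le_rfl)))
  refine h1.trans ?_
  have h2 : (⨆ k, ENNReal.ofReal ‖‖ys k‖⁻¹ • ys k‖) ≤ 1 := by
    refine iSup_le fun k => ?_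
    rw [← ENNReal.ofReal_one]
    refine ENNReal.ofReal_le_ofReal ?_
    rw [norm_smul, norm_inv, norm_norm]
    exact inv_mul_le_one
  have h3 : weakNorm 1 (fun k => ‖ys k‖ • xs k) ≤
      ENNReal.ofReal ((∑ k, ‖ys k‖ ^ p) ^ (1 / p)) * weakNorm q xs := by
    unfold weakNorm
    refine iSup_le fun f => iSup_le fun hf => ?_
    have h4 : ENNReal.ofReal ((∑ k, |f (xs k)| ^ q) ^ (1 / q)) ≤
        ⨆ (f : X →L[ℝ] ℝ) (_ : ‖f‖ ≤ 1), ENNReal.ofReal ((∑ k, |f (xs k)| ^ q) ^ (1 / q)) :=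
      le_iSup_of_le f (le_iSup_of_le hf le_rfl)
    refine le_trans ?_ (mul_le_mul_right h4 _)
    rw [← ENNReal.ofReal_mul (Real.rpow_nonneg (Finset.sum_nonneg fun k _ =>
      Real.rpow_nonneg (norm_nonneg _) _) _)]
    refine ENNReal.ofReal_le_ofReal ?_
    have h5 := Real.inner_le_Lp_mul_Lq (Finset.univ : Finset (Fin n)) (fun k => ‖ys k‖)
      (fun k => |f (xs k)|) hpq
    simp only [abs_norm, abs_abs] at h5
    refine le_trans (le_of_eq ?_) h5
    rw [div_one, Real.rpow_one]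
    refine Finset.sum_congr rfl fun k _ => ?_
    rw [map_smul, smul_eq_mul, abs_mul, abs_norm, Real.rpow_one]
  calc (⨆ k, ENNReal.ofReal ‖‖ys k‖⁻¹ • ys k‖) * weakNorm 1 (fun k => ‖ys k‖ • xs k)
      ≤ 1 * (ENNReal.ofReal ((∑ k, ‖ys k‖ ^ p) ^ (1 / p)) * weakNorm q xs) :=
        mul_le_mul' h2 h3
    _ = _ := one_mul _

end Pool.Agent.Helper72.BAP
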