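import Pool.Agent.Helper72.BAP.Core

/-! Part INT of helper37's second batch (MP_6f6997_an), from the statements of GG and LPBT. -/

open MeasureTheory
open scoped ENNReal NNReal

set_option maxSynthPendingDepth 3

namespace Pool.Agent.Helper72.BAP

open Pool.Agent.BAPp (sgn weakNorm gNorm FiniteRank)
open Pool.Agent.Helper37.BP

/-- statement of GG -/
def SGG : Prop :=
  ∀ (p q : ℝ) (_ : p.HolderConjugate q) {Y X : Type} [NormedAddCommGroup Y]
    [NormedSpace ℝ Y] [NormedAddCommGroup X] [NormedSpace ℝ X] (T : Y →L[ℝ] X),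
    gTop T ≤ gNorm p T

/-- statement of LPBT -/
def SLpbTop : Prop :=
  ∀ (p q : ℝ) (_ : p.HolderConjugate q) {X Ω : Type}
    [NormedAddCommGroup X] [NormedSpace ℝ X] [MeasurableSpace Ω] (μ : Measure Ω)
    [IsProbabilityMeasure μ] (A : X →L[ℝ] Lp ℝ ∞ μ)
    (B : Lp ℝ ∞ μ →L[ℝ] ((X →L[ℝ] ℝ) →L[ℝ] ℝ)) (C' : ℝ) (_ : 0 ≤ C') (_ : LinfDom p C' X)
    (n : ℕ) (b : Fin n → X) (lam : ℝ) (_ : 0 ≤ lam)
    (_ : ∀ t : Fin n → ℝ, ‖∑ j, t j • b j‖ ≤ lam * (∑ j, |t j| ^ q) ^ (1 / q))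
    (w : Fin n → ℝ) (_ : ∀ j, 0 ≤ w j) (_ : ∑ j, w j = 1) (f : Fin n → (X →L[ℝ] ℝ))
    (_ : ∀ j, ‖f j‖ ≤ 1),
    |∑ j, w j ^ (1 / q) * B (A (b j)) (f j)| ≤ C' * lam * (‖A‖ * ‖B‖)

/-- Part INT. -/
theorem inner_top_of (hG : SGG) (hL : SLpbTop) (p q : ℝ) (hpq : p.HolderConjugate q) {X : Type}
    [NormedAddCommGroup X] [NormedSpace ℝ X] (lam C' : ℝ) (hlam : 1 ≤ lam) (hC' : 1 ≤ C')
    (h : LqEP q lam X) (hM : LinfDom p C' X) (S : X →L[ℝ] X) (hS : FiniteRank S) :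
    gTop S ≤ ENNReal.ofReal (C' * lam) * iTop S := by
  have hl0 : ENNReal.ofReal (C' * lam) ≠ 0 := by
    rw [Ne, ENNReal.ofReal_eq_zero]
    nlinarith
  have hl1 : ENNReal.ofReal (C' * lam) ≠ ⊤ := ENNReal.ofReal_ne_top
  have hdiv : gTop S / ENNReal.ofReal (C' * lam) ≤ iTop S := by
    unfold iTop
    refine le_iInf fun Ω => le_iInf fun _ => le_iInf fun μ => le_iInf fun _ => le_iInf fun A =>
      le_iInf fun B => le_iInf fun hAB => ?_
    rw [ENNReal.div_le_iff hl0 hl1, ← ENNReal.ofReal_mul (by positivity)]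
    refine (hG p q hpq S).trans ?_
    refine inner_core p q hpq lam hlam h S hS _ (by positivity) ?_
    intro n b hb w hw hw1 f hf
    have h1 := hL p q hpq μ A B C' (by linarith) hM n b lam (by linarith) hb w hw hw1 f hf
    have h2 : ∑ j, w j ^ (1 / q) * f j (S (b j)) = ∑ j, w j ^ (1 / q) * B (A (b j)) (f j) :=
      Finset.sum_congr rfl fun j _ => by rw [hAB]
    rw [h2]
    refine h1.trans (le_of_eq ?_)
    ring
  rw [ENNReal.div_le_iff hl0 hl1] at hdiv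
  rwa [mul_comm] at hdiv

end Pool.Agent.Helper72.BAP
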