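import Pool.Agent.Helper37.BP.Defs2
import Pool.Agent.Helper31.BAP.LPB
import Pool.Agent.Helper51.BAP.ClaimB
import Pool.Agent.Helper72.BAP.Int
import Pool.Agent.Helper72.BAP.GG

/-! Part LPBT of helper37's second batch (MP_6f6997_an). -/

open MeasureTheory
open scoped ENNReal NNReal

set_option maxSynthPendingDepth 3

namespace Pool.Agent.Helper72.BAP

open Pool.Agent.BAPp (sgn weakNorm gNorm FiniteRank)
open Pool.Agent.Helper37.BP

/-- the almost everywhere bound -/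
theorem ae_bound (p q : ℝ) (hpq : p.HolderConjugate q) {X Ω : Type}
    [NormedAddCommGroup X] [NormedSpace ℝ X] [MeasurableSpace Ω] (μ : Measure Ω)
    [IsProbabilityMeasure μ] (A : X →L[ℝ] Lp ℝ ∞ μ) (n : ℕ) (b : Fin n → X) (lam : ℝ)
    (hlam : 0 ≤ lam)
    (hb : ∀ t : Fin n → ℝ, ‖∑ j, t j • b j‖ ≤ lam * (∑ j, |t j| ^ q) ^ (1 / q)) :
    ∀ᵐ ω ∂μ, ∑ j, |(A (b j) : Ω → ℝ) ω| ^ p ≤ (lam * ‖A‖) ^ p := by
  have hp0 : 0 < p := hpq.pos
  have hq0 : 0 < q := hpq.symm.pos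
  set C : ℝ := lam * ‖A‖ with hC
  have hC0 : 0 ≤ C := by positivity
  -- the almost everywhere inequality for fixed `t`
  have h1 : ∀ t : Fin n → ℝ, ∀ᵐ ω ∂μ, |∑ j, t j * (A (b j) : Ω → ℝ) ω| ≤
      C * (∑ j, |t j| ^ q) ^ (1 / q) := by
    intro t
    have e0 : A (∑ j, t j • b j) = ∑ j, t j • A (b j) := by
      rw [map_sum]; exact Finset.sum_congr rfl fun j _ => by rw [map_smul]
    have e1 : ‖A (∑ j, t j • b j)‖ ≤ C * (∑ j, |t j| ^ q) ^ (1 / q) := by
      calc ‖A (∑ j, t j • b j)‖ ≤ ‖A‖ * ‖∑ j, t j • b j‖ := A.le_opNorm _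
        _ ≤ ‖A‖ * (lam * (∑ j, |t j| ^ q) ^ (1 / q)) :=
            mul_le_mul_of_nonneg_left (hb t) (norm_nonneg _)
        _ = _ := by rw [hC]; ring
    have e2 : ∀ᵐ ω ∂μ, ‖(A (∑ j, t j • b j) : Ω → ℝ) ω‖ₑ ≤
        eLpNorm (A (∑ j, t j • b j) : Ω → ℝ) ∞ μ := by
      rw [eLpNorm_exponent_top]
      exact ae_le_eLpNormEssSup
    have e3 : ⇑(∑ j, t j • A (b j)) =ᵐ[μ] fun ω => ∑ j, (t j • A (b j) : Lp ℝ ∞ μ) ω :=
      Lp.coeFn_fun_finsetSum _ _
    have e4 : ∀ᵐ ω ∂μ, ∀ j, (t j • A (b j) : Lp ℝ ∞ μ) ω = t j * (A (b j) : Ω → ℝ) ω := by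
      rw [ae_all_iff]
      intro j
      filter_upwards [Lp.coeFn_smul (t j) (A (b j))] with ω hω
      rw [hω]; rfl
    filter_upwards [e2, e3, e4] with ω h2 h3 h4
    rw [e0] at h2
    rw [h3, ← Lp.enorm_def, ← e0] at h2
    have h5 : ‖∑ j, (t j • A (b j) : Lp ℝ ∞ μ) ω‖ ≤ ‖A (∑ j, t j • b j)‖ := by
      rw [← ofReal_norm, ← ofReal_norm] at h2
      exact (ENNReal.ofReal_le_ofReal_iff (norm_nonneg _)).1 h2
    rw [Finset.sum_congr rfl (fun j _ => h4 j)] at h5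
    rw [Real.norm_eq_abs] at h5
    exact h5.trans e1
  have h3 : ∀ᵐ ω ∂μ, ∀ k : ℕ, |∑ j, TopologicalSpace.denseSeq (Fin n → ℝ) k j *
      (A (b j) : Ω → ℝ) ω| ≤
      C * (∑ j, |TopologicalSpace.denseSeq (Fin n → ℝ) k j| ^ q) ^ (1 / q) := by
    rw [ae_all_iff]
    intro k
    exact h1 _
  filter_upwards [h3] with ω hω
  refine Pool.Agent.Helper31.BAP.lp_dual hpq _ C hC0 fun t => ?_
  have hcl : IsClosed {t : Fin n → ℝ | |∑ j, t j * (A (b j) : Ω → ℝ) ω| ≤
      C * (∑ j, |t j| ^ q) ^ (1 / q)} := by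
    refine isClosed_le (by fun_prop) ?_
    refine continuous_const.mul ?_
    refine Continuous.rpow_const ?_ (fun _ => Or.inr (by positivity))
    refine continuous_finsetSum _ fun j _ => ?_
    exact Continuous.rpow_const (by fun_prop) (fun _ => Or.inr hq0.le)
  have hsub : Set.range (TopologicalSpace.denseSeq (Fin n → ℝ)) ⊆
      {t : Fin n → ℝ | |∑ j, t j * (A (b j) : Ω → ℝ) ω| ≤
      C * (∑ j, |t j| ^ q) ^ (1 / q)} := by
    rintro _ ⟨k, rfl⟩
    exact hω k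
  have := (TopologicalSpace.denseRange_denseSeq (Fin n → ℝ)).closure_range
  have h4 := closure_minimal hsub hcl
  rw [this] at h4
  exact h4 (Set.mem_univ t)

/-- common finite partition -/
theorem exists_partition {Ω : Type} [MeasurableSpace Ω] (μ : Measure Ω) [IsProbabilityMeasure μ]
    (n : ℕ) (h : Fin n → Lp ℝ ∞ μ) (P : Ω → Prop) (hP : ∀ᵐ ω ∂μ, P ω) (e : ℝ) (he : 0 < e) :
    ∃ (L : ℕ) (Φ : (Fin L → ℝ) →ₗ[ℝ] Lp ℝ ∞ μ) (c : Fin n → Fin L → ℝ),
      (∀ τ, ‖Φ τ‖ ≤ ‖τ‖) ∧ (∀ j, ‖h j - Φ (c j)‖ ≤ e) ∧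
      ∀ l, ∃ ω, P ω ∧ ∀ j, c j l = h j ω := by
  classical
  -- bound
  obtain ⟨M, hM0, hM⟩ : ∃ M : ℝ, 0 ≤ M ∧ ∀ j, ‖h j‖ ≤ M :=
    ⟨∑ j, ‖h j‖, Finset.sum_nonneg fun j _ => norm_nonneg _, fun j =>
      Finset.single_le_sum (f := fun j => ‖h j‖) (fun j _ => norm_nonneg _) (Finset.mem_univ j)⟩
  have hbd : ∀ᵐ ω ∂μ, ∀ j, |h j ω| ≤ M := by
    rw [ae_all_iff]
    intro j
    have e2 : ∀ᵐ ω ∂μ, ‖(h j : Ω → ℝ) ω‖ₑ ≤ eLpNorm (h j : Ω → ℝ) ∞ μ := by
      rw [eLpNorm_exponent_top]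
      exact ae_le_eLpNormEssSup
    filter_upwards [e2] with ω hω
    rw [← Lp.enorm_def, ← ofReal_norm, ← ofReal_norm] at hω
    have h5 := (ENNReal.ofReal_le_ofReal_iff (norm_nonneg _)).1 hω
    rw [Real.norm_eq_abs] at h5
    exact h5.trans (hM j)
  set K : ℤ := ⌈M / e⌉ + 1 with hK
  let G : Ω → Fin n → ℤ := fun ω j => ⌊h j ω / e⌋
  let Ev : (Fin n → ℤ) → Set Ω := fun v => {ω | G ω = v}
  have hEv : ∀ v, MeasurableSet (Ev v) := by
    intro v
    have h1 : Ev v = ⋂ j, (fun ω => ⌊h j ω / e⌋) ⁻¹' {v j} := by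
      ext ω
      simp only [Ev, G, Set.mem_setOf_eq, Set.mem_iInter, Set.mem_preimage, Set.mem_singleton_iff]
      exact funext_iff
    rw [h1]
    refine MeasurableSet.iInter fun j => ?_
    refine (Int.measurable_floor.comp ?_) (measurableSet_singleton _)
    exact (Lp.stronglyMeasurable (h j)).measurable.div_const e
  let V : Finset (Fin n → ℤ) :=
    (Fintype.piFinset (fun _ : Fin n => Finset.Icc (-K) K)).filter (fun v => μ (Ev v) ≠ 0)
  let σ : V ≃ Fin V.card := V.equivFin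
  let ve : Fin V.card → (Fin n → ℤ) := fun l => (σ.symm l : Fin n → ℤ)
  have hve_inj : Function.Injective ve := fun l l' h0 => σ.symm.injective (Subtype.ext h0)
  have hveV : ∀ l, ve l ∈ V := fun l => (σ.symm l).2
  have hpt : ∀ l, ∃ ω, ω ∈ Ev (ve l) ∧ P ω := by
    intro l
    have h1 : μ (Ev (ve l)) ≠ 0 := (Finset.mem_filter.1 (hveV l)).2
    by_contra hcon
    push Not at hcon
    apply h1
    refine measure_mono_null ?_ hP
    intro ω hω
    exact hcon ω hω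
  choose pt hpt1 hpt2 using hpt
  let Φ : (Fin V.card → ℝ) →ₗ[ℝ] Lp ℝ ∞ μ :=
    { toFun := fun τ => ∑ l, τ l • indicatorConstLp ∞ (hEv (ve l)) (measure_ne_top μ _) (1 : ℝ)
      map_add' := by
        intro τ τ'
        simp only [Pi.add_apply, add_smul, Finset.sum_add_distrib]
      map_smul' := by
        intro c τ
        simp only [Pi.smul_apply, smul_eq_mul, mul_smul, Finset.smul_sum, RingHom.id_apply] }
  have hΦ : ∀ τ : Fin V.card → ℝ, ∀ᵐ ω ∂μ, Φ τ ω = ∑ l, if G ω = ve l then τ l else 0 := by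
    intro τ
    have e3 : ⇑(Φ τ) =ᵐ[μ] fun ω => ∑ l,
        (τ l • indicatorConstLp ∞ (hEv (ve l)) (measure_ne_top μ _) (1 : ℝ) : Lp ℝ ∞ μ) ω :=
      Lp.coeFn_fun_finsetSum _ _
    have e4 : ∀ᵐ ω ∂μ, ∀ l,
        (τ l • indicatorConstLp ∞ (hEv (ve l)) (measure_ne_top μ _) (1 : ℝ) : Lp ℝ ∞ μ) ω =
        if G ω = ve l then τ l else 0 := by
      rw [ae_all_iff]
      intro l
      filter_upwards [Lp.coeFn_smul (τ l)
        (indicatorConstLp ∞ (hEv (ve l)) (measure_ne_top μ _) (1 : ℝ) : Lp ℝ ∞ μ),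
        indicatorConstLp_coeFn (p := ∞) (hs := hEv (ve l)) (hμs := measure_ne_top μ _)
          (c := (1 : ℝ))] with ω h1 h2
      rw [h1, Pi.smul_apply, h2, smul_eq_mul]
      by_cases h3 : G ω = ve l
      · rw [if_pos h3, Set.indicator_of_mem (show ω ∈ Ev (ve l) from h3), mul_one]
      · rw [if_neg h3, Set.indicator_of_notMem (show ω ∉ Ev (ve l) from h3), mul_zero]
    filter_upwards [e3, e4] with ω h1 h2
    rw [h1]
    exact Finset.sum_congr rfl fun l _ => h2 l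
  have hΦ1 : ∀ τ : Fin V.card → ℝ, ∀ ω l, G ω = ve l →
      (∑ l, if G ω = ve l then τ l else 0) = τ l := by
    intro τ ω l hl
    rw [Finset.sum_eq_single l]
    · rw [if_pos hl]
    · intro l' _ hne
      rw [if_neg]
      intro h0
      exact hne (hve_inj (h0.symm.trans hl))
    · intro h0
      exact absurd (Finset.mem_univ l) h0
  have hcover : ∀ᵐ ω ∂μ, ∃ l, G ω = ve l := by
    have h1 : ∀ᵐ ω ∂μ, ∀ v : (Fin n → ℤ), μ (Ev v) = 0 → G ω ≠ v := by
      rw [ae_all_iff]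
      intro v
      by_cases hv : μ (Ev v) = 0
      · have : ∀ᵐ ω ∂μ, ω ∉ Ev v := by
          rw [ae_iff]
          simpa using hv
        filter_upwards [this] with ω hω _
        exact hω
      · filter_upwards with ω h0
        exact absurd h0 hv
    filter_upwards [h1, hbd] with ω hω1 hω2
    have hmem : G ω ∈ V := by
      refine Finset.mem_filter.2 ⟨Fintype.mem_piFinset.2 fun j => ?_, ?_⟩
      · rw [Finset.mem_Icc]
        have h3 := abs_le.1 (hω2 j)
        have h4 : h j ω / e ≤ M / e := div_le_div_of_nonneg_right h3.2 he.le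
        have h5 : -(M / e) ≤ h j ω / e := by
          rw [← neg_div]
          exact div_le_div_of_nonneg_right h3.1 he.le
        constructor
        · show -K ≤ ⌊h j ω / e⌋
          rw [Int.le_floor, hK]
          push_cast
          have := Int.le_ceil (M / e)
          linarith
        · show ⌊h j ω / e⌋ ≤ K
          have h6 : (⌊h j ω / e⌋ : ℝ) ≤ K := by
            have h7 := Int.floor_le (h j ω / e)
            rw [hK]
            push_cast
            have := Int.le_ceil (M / e)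
            linarith
          exact_mod_cast h6
      · intro h0
        exact hω1 (G ω) h0 rfl
    refine ⟨σ ⟨G ω, hmem⟩, ?_⟩
    show G ω = (σ.symm (σ ⟨G ω, hmem⟩) : Fin n → ℤ)
    rw [Equiv.symm_apply_apply]
  have hnorm : ∀ (f : Lp ℝ ∞ μ) (C : ℝ), 0 ≤ C → (∀ᵐ ω ∂μ, ‖f ω‖ ≤ C) → ‖f‖ ≤ C := by
    intro f C hC hf
    have := Lp.norm_le_of_ae_bound (f := f) hC hf
    simpa using this
  refine ⟨V.card, Φ, fun j l => h j (pt l), ?_, ?_, fun l => ⟨pt l, hpt2 l, fun j => rfl⟩⟩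
  · intro τ
    refine hnorm _ _ (norm_nonneg _) ?_
    filter_upwards [hΦ τ, hcover] with ω h1 h2
    obtain ⟨l, hl⟩ := h2
    rw [h1, hΦ1 τ ω l hl]
    exact norm_le_pi_norm τ l
  · intro j
    refine hnorm _ _ he.le ?_
    filter_upwards [Lp.coeFn_sub (h j) (Φ (fun l => h j (pt l))), hΦ (fun l => h j (pt l)),
      hcover] with ω h0 h1 h2
    obtain ⟨l, hl⟩ := h2
    rw [h0, Pi.sub_apply, h1, hΦ1 _ ω l hl]
    have h3 : ⌊h j ω / e⌋ = ve l j := congrFun hl j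
    have h4 : ⌊h j (pt l) / e⌋ = ve l j := congrFun (hpt1 l) j
    have h5 := Int.abs_sub_lt_one_of_floor_eq_floor (h3.trans h4.symm)
    have h6 : h j ω / e - h j (pt l) / e = (h j ω - h j (pt l)) / e := by ring
    rw [h6, abs_div, abs_of_pos he, div_lt_one he] at h5
    rw [Real.norm_eq_abs]
    exact h5.le

/-- Part LPBT. -/
theorem lpbTop (p q : ℝ) (hpq : p.HolderConjugate q) {X Ω : Type}
    [NormedAddCommGroup X] [NormedSpace ℝ X] [MeasurableSpace Ω] (μ : Measure Ω)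
    [IsProbabilityMeasure μ] (A : X →L[ℝ] Lp ℝ ∞ μ)
    (B : Lp ℝ ∞ μ →L[ℝ] ((X →L[ℝ] ℝ) →L[ℝ] ℝ)) (C' : ℝ) (hC' : 0 ≤ C') (hM : LinfDom p C' X)
    (n : ℕ) (b : Fin n → X) (lam : ℝ) (hlam : 0 ≤ lam)
    (hb : ∀ t : Fin n → ℝ, ‖∑ j, t j • b j‖ ≤ lam * (∑ j, |t j| ^ q) ^ (1 / q))
    (w : Fin n → ℝ) (hw : ∀ j, 0 ≤ w j) (hw1 : ∑ j, w j = 1) (f : Fin n → (X →L[ℝ] ℝ))
    (hf : ∀ j, ‖f j‖ ≤ 1) :
    |∑ j, w j ^ (1 / q) * B (A (b j)) (f j)| ≤ C' * lam * (‖A‖ * ‖B‖) := by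
  classical
  have hp0 : 0 < p := hpq.pos
  have hq0 : 0 < q := hpq.symm.pos
  have hae := ae_bound p q hpq μ A n b lam hlam hb
  have hwle : ∀ j, w j ^ (1 / q) ≤ 1 := by
    intro j
    refine Real.rpow_le_one (hw j) ?_ (by positivity)
    rw [← hw1]
    exact Finset.single_le_sum (f := w) (fun j _ => hw j) (Finset.mem_univ j)
  -- main estimate up to `e`
  have hmain : ∀ e : ℝ, 0 < e → |∑ j, w j ^ (1 / q) * B (A (b j)) (f j)| ≤
      C' * lam * (‖A‖ * ‖B‖) + e * (n * ‖B‖) := by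
    intro e he
    obtain ⟨L, Φ, c, hΦ, hc, hpt⟩ := exists_partition μ n (fun j => A (b j)) _ hae e he
    let R : (Fin L → ℝ) →ₗ[ℝ] (X →L[ℝ] ℝ) →ₗ[ℝ] ℝ := LinearMap.mk₂ ℝ (fun τ x => B (Φ τ) x)
      (fun τ τ' x => by simp) (fun c τ x => by simp) (fun τ x x' => by simp)
      (fun c τ x => by simp)
    have hRdef : ∀ τ x, R τ x = B (Φ τ) x := fun τ x => rfl
    have hR : ∀ τ x, |R τ x| ≤ ‖B‖ * ‖x‖ * ‖τ‖ := by
      intro τ x
      rw [hRdef]
      calc |B (Φ τ) x| ≤ ‖B (Φ τ)‖ * ‖x‖ := (B (Φ τ)).le_opNorm x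
        _ ≤ (‖B‖ * ‖Φ τ‖) * ‖x‖ := mul_le_mul_of_nonneg_right (B.le_opNorm _) (norm_nonneg _)
        _ ≤ (‖B‖ * ‖τ‖) * ‖x‖ := mul_le_mul_of_nonneg_right
            (mul_le_mul_of_nonneg_left (hΦ τ) (norm_nonneg _)) (norm_nonneg _)
        _ = _ := by ring
    have hcl : ∀ l, ∑ j, |c j l| ^ p ≤ (lam * ‖A‖) ^ p := by
      intro l
      obtain ⟨ω, hω, hcω⟩ := hpt l
      simp only [hcω]
      exact hω
    have hcb : ∀ u : (Fin L → ℝ) →L[ℝ] X, ‖u‖ ≤ 1 →
        |∑ j, (w j ^ (1 / q) • f j) (u (c j))| ≤ C' * (lam * ‖A‖) := by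
      intro u hu
      let x : Fin L → X := fun l => u (Pi.single l 1)
      have hux : ∀ t : Fin L → ℝ, u t = ∑ l, t l • x l := by
        intro t
        conv_lhs => rw [← Finset.univ_sum_single t, map_sum]
        refine Finset.sum_congr rfl fun l _ => ?_
        rw [← map_smul]
        congr 1
        rw [← Pi.single_smul, smul_eq_mul, mul_one]
      obtain ⟨w', hw'0, hw'1, hw'⟩ := hM L x (by
        intro t ht
        rw [← hux]
        have h1 : ‖t‖ ≤ 1 := (pi_norm_le_iff_of_nonneg zero_le_one).2 fun l => by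
          rw [Real.norm_eq_abs]
          exact ht l
        calc ‖u t‖ ≤ ‖u‖ * ‖t‖ := u.le_opNorm t
          _ ≤ 1 * 1 := mul_le_mul hu h1 (norm_nonneg _) zero_le_one
          _ = 1 := one_mul _)
      have h2 : ∀ j, ‖u (c j)‖ ≤ C' * (∑ l, w' l * |c j l| ^ p) ^ (1 / p) := by
        intro j
        rw [hux]
        exact hw' (c j)
      have h3 : ∑ j, ‖u (c j)‖ ^ p ≤ (C' * (lam * ‖A‖)) ^ p := by
        calc ∑ j, ‖u (c j)‖ ^ p ≤ ∑ j, C' ^ p * ∑ l, w' l * |c j l| ^ p := by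
              refine Finset.sum_le_sum fun j _ => ?_
              have h4 : 0 ≤ ∑ l, w' l * |c j l| ^ p := Finset.sum_nonneg fun l _ =>
                mul_nonneg (hw'0 l) (Real.rpow_nonneg (abs_nonneg _) _)
              calc ‖u (c j)‖ ^ p ≤ (C' * (∑ l, w' l * |c j l| ^ p) ^ (1 / p)) ^ p :=
                    Real.rpow_le_rpow (norm_nonneg _) (h2 j) hp0.le
                _ = _ := by
                    rw [Real.mul_rpow hC' (Real.rpow_nonneg h4 _), ← Real.rpow_mul h4, one_div,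
                      inv_mul_cancel₀ hp0.ne', Real.rpow_one]
          _ = C' ^ p * ∑ l, w' l * ∑ j, |c j l| ^ p := by
              rw [← Finset.mul_sum, Finset.sum_comm]
              congr 1
              refine Finset.sum_congr rfl fun l _ => ?_
              rw [Finset.mul_sum]
          _ ≤ C' ^ p * ∑ l, w' l * (lam * ‖A‖) ^ p := by
              refine mul_le_mul_of_nonneg_left ?_ (Real.rpow_nonneg hC' _)
              exact Finset.sum_le_sum fun l _ => mul_le_mul_of_nonneg_left (hcl l) (hw'0 l)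
          _ ≤ C' ^ p * (lam * ‖A‖) ^ p := by
              refine mul_le_mul_of_nonneg_left ?_ (Real.rpow_nonneg hC' _)
              rw [← Finset.sum_mul]
              have : 0 ≤ (lam * ‖A‖) ^ p := Real.rpow_nonneg (by positivity) _
              nlinarith
          _ = (C' * (lam * ‖A‖)) ^ p := (Real.mul_rpow hC' (by positivity)).symm
      have h5 : |∑ j, (w j ^ (1 / q) • f j) (u (c j))| ≤ ∑ j, w j ^ (1 / q) * ‖u (c j)‖ := by
        refine (Finset.abs_sum_le_sum_abs _ _).trans (Finset.sum_le_sum fun j _ => ?_)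
        show |w j ^ (1 / q) * f j (u (c j))| ≤ _
        rw [abs_mul, abs_of_nonneg (Real.rpow_nonneg (hw j) _)]
        refine mul_le_mul_of_nonneg_left ?_ (Real.rpow_nonneg (hw j) _)
        calc |f j (u (c j))| ≤ ‖f j‖ * ‖u (c j)‖ := (f j).le_opNorm _
          _ ≤ 1 * ‖u (c j)‖ := mul_le_mul_of_nonneg_right (hf j) (norm_nonneg _)
          _ = _ := one_mul _
      refine h5.trans ?_
      have h6 := Real.inner_le_Lp_mul_Lq (Finset.univ : Finset (Fin n)) (fun j => w j ^ (1 / q))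
        (fun j => ‖u (c j)‖) hpq.symm
      have h60 : ∀ j, |(w j) ^ (1 / q)| ^ q = w j := by
        intro j
        rw [abs_of_nonneg (Real.rpow_nonneg (hw j) _), ← Real.rpow_mul (hw j), one_div,
          inv_mul_cancel₀ hq0.ne', Real.rpow_one]
      simp only [h60, hw1, Real.one_rpow, one_mul, abs_norm] at h6
      refine h6.trans ?_
      have h7 : (∑ j, ‖u (c j)‖ ^ p) ^ (1 / p) ≤ ((C' * (lam * ‖A‖)) ^ p) ^ (1 / p) :=
        Real.rpow_le_rpow (Finset.sum_nonneg fun j _ => Real.rpow_nonneg (norm_nonneg _) _) h3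
          (by positivity)
      refine h7.trans (le_of_eq ?_)
      rw [← Real.rpow_mul (by positivity), mul_one_div, div_self hp0.ne', Real.rpow_one]
    have h8 := Pool.Agent.Helper51.BAP.claimB n c (fun j => w j ^ (1 / q) • f j)
      (C' * (lam * ‖A‖)) hcb R ‖B‖ (norm_nonneg _) hR
    have h9 : |∑ j, w j ^ (1 / q) * B (A (b j)) (f j) -
        ∑ j, R (c j) (w j ^ (1 / q) • f j)| ≤ e * (n * ‖B‖) := by
      rw [← Finset.sum_sub_distrib]
      refine (Finset.abs_sum_le_sum_abs _ _).trans ?_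
      have h10 : ∀ j ∈ (Finset.univ : Finset (Fin n)),
          |w j ^ (1 / q) * B (A (b j)) (f j) - R (c j) (w j ^ (1 / q) • f j)| ≤ e * ‖B‖ := by
        intro j _
        have h11 : w j ^ (1 / q) * B (A (b j)) (f j) - R (c j) (w j ^ (1 / q) • f j) =
            w j ^ (1 / q) * B (A (b j) - Φ (c j)) (f j) := by
          rw [hRdef, map_sub, map_smul, smul_eq_mul, sub_apply]
          ring
        rw [h11, abs_mul, abs_of_nonneg (Real.rpow_nonneg (hw j) _)]
        have h12 : |B (A (b j) - Φ (c j)) (f j)| ≤ e * ‖B‖ := by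
          calc |B (A (b j) - Φ (c j)) (f j)| ≤ ‖B (A (b j) - Φ (c j))‖ * ‖f j‖ :=
                (B (A (b j) - Φ (c j))).le_opNorm _
            _ ≤ (‖B‖ * ‖A (b j) - Φ (c j)‖) * 1 :=
                mul_le_mul (B.le_opNorm _) (hf j) (norm_nonneg _) (by positivity)
            _ ≤ (‖B‖ * e) * 1 := by
                rw [mul_one, mul_one]
                exact mul_le_mul_of_nonneg_left (hc j) (norm_nonneg _)
            _ = e * ‖B‖ := by ring
        calc w j ^ (1 / q) * |B (A (b j) - Φ (c j)) (f j)| ≤ 1 * (e * ‖B‖) :=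
              mul_le_mul (hwle j) h12 (abs_nonneg _) zero_le_one
          _ = _ := one_mul _
      refine (Finset.sum_le_sum h10).trans (le_of_eq ?_)
      rw [Finset.sum_const, Finset.card_univ, Fintype.card_fin, nsmul_eq_mul]
      ring
    have h13 : |∑ j, w j ^ (1 / q) * B (A (b j)) (f j)| ≤
        |∑ j, R (c j) (w j ^ (1 / q) • f j)| + e * (n * ‖B‖) := by
      have h14 := abs_sub_abs_le_abs_sub (∑ j, w j ^ (1 / q) * B (A (b j)) (f j))
        (∑ j, R (c j) (w j ^ (1 / q) • f j))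
      linarith
    calc |∑ j, w j ^ (1 / q) * B (A (b j)) (f j)| ≤
        |∑ j, R (c j) (w j ^ (1 / q) • f j)| + e * (n * ‖B‖) := h13
      _ ≤ ‖B‖ * (C' * (lam * ‖A‖)) + e * (n * ‖B‖) := by linarith
      _ = _ := by ring
  refine le_of_forall_pos_le_add fun δ hδ => ?_
  have h2 := hmain (δ / (n * ‖B‖ + 1)) (by positivity)
  have h3 : δ / (n * ‖B‖ + 1) * (n * ‖B‖) ≤ δ := by
    rw [div_mul_eq_mul_div, div_le_iff₀ (by positivity)]
    nlinarith
  linarith

/-- Part INT, complete. -/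
theorem inner_top (p q : ℝ) (hpq : p.HolderConjugate q) {X : Type}
    [NormedAddCommGroup X] [NormedSpace ℝ X] (lam C' : ℝ) (hlam : 1 ≤ lam) (hC' : 1 ≤ C')
    (h : LqEP q lam X) (hM : LinfDom p C' X) (S : X →L[ℝ] X) (hS : FiniteRank S) :
    gTop S ≤ ENNReal.ofReal (C' * lam) * iTop S :=
  inner_top_of (fun p q hpq _ _ _ _ _ _ T => gTop_le_gNorm p q hpq T)
    (fun p q hpq _ _ _ _ _ μ _ A B C' hC' hM n b lam hlam hb w hw hw1 f hf =>
      lpbTop p q hpq μ A B C' hC' hM n b lam hlam hb w hw hw1 f hf)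
    p q hpq lam C' hlam hC' h hM S hS

end Pool.Agent.Helper72.BAP
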