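import Pool.Agent.Helper37.BP.Defs2
import Pool.Agent.Helper12.BAP.DualA
import Pool.Agent.Helper51.BAP.Pietsch
import Pool.Agent.Helper51.BAP.ClaimB

/-! Part CORE of helper37's second batch (MP_6f6997_an). -/

open MeasureTheory
open scoped ENNReal NNReal

set_option maxSynthPendingDepth 3

namespace Pool.Agent.Helper72.BAP

open Pool.Agent.BAPp (sgn weakNorm gNorm FiniteRank)
open Pool.Agent.Helper37.BP

section coremain

variable {X : Type} [NormedAddCommGroup X] [NormedSpace ℝ X]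

/-- The key estimate. -/
theorem core_key (p q : ℝ) (hpq : p.HolderConjugate q)
    (lam : ℝ) (h : LqEP q lam X)
    (E : Submodule ℝ X) [FiniteDimensional ℝ E] (S' : X →L[ℝ] E)
    (Λ : (X →L[ℝ] E) →ₗ[ℝ] ℝ) (hΛ : Pool.Agent.Helper12.BAP.Sub p q E Λ) (c : ℝ)
    (hcore : ∀ (n : ℕ) (b : Fin n → X),
      (∀ t : Fin n → ℝ, ‖∑ j, t j • b j‖ ≤ lam * (∑ j, |t j| ^ q) ^ (1 / q)) →
      ∀ w : Fin n → ℝ, (∀ j, 0 ≤ w j) → ∑ j, w j = 1 →
      ∀ f : Fin n → (X →L[ℝ] ℝ), (∀ j, ‖f j‖ ≤ 1) →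
      |∑ j, w j ^ (1 / q) * f j (S' (b j) : X)| ≤ c)
    (ε : ℝ) (hε : 0 < ε) : Λ S' ≤ (1 + ε) * c := by
  classical
  have hq1 : 1 < q := hpq.symm.lt
  have hq0 : 0 < q := by linarith
  have : Fact (1 ≤ ENNReal.ofReal q) := ⟨by
    rw [← ENNReal.ofReal_one]
    exact ENNReal.ofReal_le_ofReal hq1.le⟩
  obtain ⟨M, f, w, hf, hw0, hw1, hpie⟩ := Pool.Agent.Helper51.BAP.pietsch p q hpq E Λ hΛ ε hε
  set Q : ℝ≥0∞ := ENNReal.ofReal q with hQ
  have hQr : Q.toReal = q := ENNReal.toReal_ofReal hq0.le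
  -- the map `J0`
  let J0 : E →ₗ[ℝ] (Fin M → ℝ) := LinearMap.pi (fun j => (w j) ^ (1 / q) • ((f j : X →ₗ[ℝ] ℝ) ∘ₗ E.subtype))
  have hJ0 : ∀ (y : E) (j : Fin M), J0 y j = (w j) ^ (1 / q) * f j (y : X) := fun y j => rfl
  let F' : Submodule ℝ (Fin M → ℝ) := LinearMap.range J0
  let eL : PiLp Q (fun _ : Fin M => ℝ) ≃ₗ[ℝ] (Fin M → ℝ) := WithLp.linearEquiv Q ℝ (Fin M → ℝ)
  let F : Submodule ℝ (PiLp Q (fun _ : Fin M => ℝ)) := F'.comap (eL : PiLp Q (fun _ : Fin M => ℝ) →ₗ[ℝ] (Fin M → ℝ))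
  have hnorm : ∀ s : PiLp Q (fun _ : Fin M => ℝ), ‖s‖ = (∑ j, |s j| ^ q) ^ (1 / q) := by
    intro s
    rw [PiLp.norm_eq_sum (by rw [hQr]; exact hq0), hQr]
    rfl
  have hmem : ∀ y : E, eL.symm (J0 y) ∈ F := by
    intro y
    show eL (eL.symm (J0 y)) ∈ F'
    rw [LinearEquiv.apply_symm_apply]
    exact LinearMap.mem_range_self J0 y
  let J : E →ₗ[ℝ] F := LinearMap.codRestrict F ((eL.symm : (Fin M → ℝ) →ₗ[ℝ] PiLp Q (fun _ : Fin M => ℝ)) ∘ₗ J0) hmem
  have hJn : ∀ y : E, ‖J y‖ = (∑ j, w j * |f j y| ^ q) ^ (1 / q) := by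
    intro y
    have h1 : ‖J y‖ = ‖eL.symm (J0 y)‖ := rfl
    rw [h1, hnorm]
    congr 1
    apply Finset.sum_congr rfl
    intro j _
    have h2 : (eL.symm (J0 y)) j = (w j) ^ (1 / q) * f j (y : X) := rfl
    rw [h2, abs_mul, Real.mul_rpow (abs_nonneg _) (abs_nonneg _),
      abs_of_nonneg (Real.rpow_nonneg (hw0 j) _), ← Real.rpow_mul (hw0 j), one_div,
      inv_mul_cancel₀ hq0.ne', Real.rpow_one]
  have hJs : Function.Surjective J := by
    intro s
    obtain ⟨y, hy⟩ := s.2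
    refine ⟨y, Subtype.ext ?_⟩
    show eL.symm (J0 y) = (s : PiLp Q (fun _ : Fin M => ℝ))
    rw [hy]
    exact LinearEquiv.symm_apply_apply eL _
  obtain ⟨τ, hτ⟩ := J.exists_rightInverse_of_surjective (LinearMap.range_eq_top.2 hJs)
  have hτ' : ∀ s, J (τ s) = s := fun s => LinearMap.congr_fun hτ s
  -- the bilinear form
  let R : F →ₗ[ℝ] (X →L[ℝ] ℝ) →ₗ[ℝ] ℝ := LinearMap.mk₂ ℝ (fun s x => Λ (x.smulRight (τ s)))
    (by
      intro s s' x
      rw [← map_add]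
      congr 1
      ext v
      simp)
    (by
      intro c s x
      rw [← map_smul]
      congr 1
      ext v
      simp [smul_smul, mul_comm])
    (by
      intro s x x'
      rw [← map_add]
      congr 1
      ext v
      simp [add_smul])
    (by
      intro c s x
      rw [← map_smul]
      congr 1
      ext v
      simp [smul_smul])
  have hRdef : ∀ s x, R s x = Λ (x.smulRight (τ s)) := fun s x => rfl
  have hR : ∀ s x, |R s x| ≤ (1 + ε) * ‖x‖ * ‖s‖ := by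
    intro s x
    rw [hRdef]
    have h1 := hpie x (τ s)
    rw [← hJn (τ s), hτ' s] at h1
    exact h1
  have hRJ : ∀ (y : E) (x : X →L[ℝ] ℝ), Λ (x.smulRight y) = R (J y) x := by
    intro y x
    rw [hRdef]
    have h1 := hpie x (y - τ (J y))
    rw [← hJn, map_sub, hτ', sub_self, norm_zero, mul_zero] at h1
    have h2 : Λ (x.smulRight (y - τ (J y))) = 0 := abs_eq_zero.1 (le_antisymm h1 (abs_nonneg _))
    have h3 : x.smulRight (y - τ (J y)) = x.smulRight y - x.smulRight (τ (J y)) := by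
      ext v
      simp [smul_sub]
    rw [h3, map_sub] at h2
    linarith
  -- the basis representation
  let bs := Module.finBasis ℝ E
  set m := Module.finrank ℝ E with hm
  let co : Fin m → (E →L[ℝ] ℝ) := fun k => LinearMap.toContinuousLinearMap (bs.coord k)
  let xs : Fin m → (X →L[ℝ] ℝ) := fun k => (co k).comp S'
  have hrep : ∀ v : X, S' v = ∑ k, xs k v • bs k := by
    intro v
    exact (bs.sum_repr (S' v)).symm
  have hS' : S' = ∑ k, (xs k).smulRight (bs k) := by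
    ext v
    rw [hrep v]
    simp [sum_apply]
  have hΛS : Λ S' = ∑ k, R (J (bs k)) (xs k) := by
    conv_lhs => rw [hS']
    rw [map_sum]
    exact Finset.sum_congr rfl fun k _ => hRJ _ _
  -- the bound for operators `u : F → X`
  have hc : ∀ u : F →L[ℝ] X, ‖u‖ ≤ 1 → |∑ k, xs k (u (J (bs k)))| ≤ c := by
    intro u hu
    have hmem' : ∀ s : F', eL.symm (s : Fin M → ℝ) ∈ F := by
      intro s
      show eL (eL.symm (s : Fin M → ℝ)) ∈ F'
      rw [LinearEquiv.apply_symm_apply]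
      exact s.2
    let e' : F' →ₗ[ℝ] F := LinearMap.codRestrict F
      ((eL.symm : (Fin M → ℝ) →ₗ[ℝ] PiLp Q (fun _ : Fin M => ℝ)) ∘ₗ F'.subtype) hmem'
    obtain ⟨b, hb1, hb2⟩ := h M F' ((u : F →ₗ[ℝ] X) ∘ₗ e') (by
      intro s
      have h1 : ‖u (e' s)‖ ≤ ‖u‖ * ‖e' s‖ := u.le_opNorm _
      have h2 : ‖e' s‖ = (∑ j, |(s : Fin M → ℝ) j| ^ q) ^ (1 / q) := by
        have h3 : ‖e' s‖ = ‖eL.symm (s : Fin M → ℝ)‖ := rfl
        rw [h3, hnorm]
        rfl
      show ‖u (e' s)‖ ≤ _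
      rw [← h2]
      calc ‖u (e' s)‖ ≤ ‖u‖ * ‖e' s‖ := h1
        _ ≤ 1 * ‖e' s‖ := mul_le_mul_of_nonneg_right hu (norm_nonneg _)
        _ = ‖e' s‖ := one_mul _)
    have hu1 : ∀ y : E, u (J y) = ∑ j, ((w j) ^ (1 / q) * f j (y : X)) • b j := by
      intro y
      have h1 := hb1 ⟨J0 y, LinearMap.mem_range_self J0 y⟩
      exact h1
    have hsum : ∑ k, xs k (u (J (bs k))) =
        ∑ j, (w j) ^ (1 / q) * f j (S' (b j) : X) := by
      have h1 : ∀ k, xs k (u (J (bs k))) = ∑ j, ((w j) ^ (1 / q) * f j (bs k : X)) * xs k (b j) := by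
        intro k
        rw [hu1, map_sum]
        exact Finset.sum_congr rfl fun j _ => by rw [map_smul, smul_eq_mul]
      simp only [h1]
      rw [Finset.sum_comm]
      refine Finset.sum_congr rfl fun j _ => ?_
      rw [hrep (b j)]
      rw [Submodule.coe_sum, map_sum, Finset.mul_sum]
      refine Finset.sum_congr rfl fun k _ => ?_
      rw [Submodule.coe_smul, map_smul, smul_eq_mul]
      ring
    rw [hsum]
    exact hcore M b hb2 w hw0 hw1 f hf
  have hfin := Pool.Agent.Helper51.BAP.claimB m (fun k => J (bs k)) xs c hc R (1 + ε) (by linarith) hR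
  rw [← hΛS] at hfin
  exact (le_abs_self _).trans hfin

/-- Part CORE. -/
theorem inner_core (p q : ℝ) (hpq : p.HolderConjugate q) {X : Type}
    [NormedAddCommGroup X] [NormedSpace ℝ X] (lam : ℝ) (hlam : 1 ≤ lam) (h : LqEP q lam X)
    (S : X →L[ℝ] X) (hS : FiniteRank S) (c : ℝ) (hc : 0 ≤ c)
    (hcore : ∀ (n : ℕ) (b : Fin n → X),
      (∀ t : Fin n → ℝ, ‖∑ j, t j • b j‖ ≤ lam * (∑ j, |t j| ^ q) ^ (1 / q)) →
      ∀ w : Fin n → ℝ, (∀ j, 0 ≤ w j) → ∑ j, w j = 1 →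
      ∀ f : Fin n → (X →L[ℝ] ℝ), (∀ j, ‖f j‖ ≤ 1) →
      |∑ j, w j ^ (1 / q) * f j (S (b j))| ≤ c) :
    gNorm p S ≤ ENNReal.ofReal c := by
  set E : Submodule ℝ X := LinearMap.range (S : X →ₗ[ℝ] X) with hE
  have : FiniteDimensional ℝ E := hS
  let S' : X →L[ℝ] E := S.codRestrict E (fun x => LinearMap.mem_range_self _ x)
  have hSS : E.subtypeL ∘L S' = S := by
    ext x
    rfl
  obtain ⟨Λ, hΛ, hg⟩ := Pool.Agent.Helper12.BAP.dualA p q hpq E S'
  rw [hSS] at hg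
  refine hg.trans ?_
  refine ENNReal.ofReal_le_ofReal ?_
  have hk : ∀ ε : ℝ, 0 < ε → Λ S' ≤ (1 + ε) * c := fun ε hε =>
    core_key p q hpq lam h E S' Λ hΛ c hcore ε hε
  refine le_of_forall_pos_le_add fun δ hδ => ?_
  have h2 := hk (δ / (c + 1)) (by positivity)
  have h3 : δ / (c + 1) * c ≤ δ := by
    rw [div_mul_eq_mul_div, div_le_iff₀ (by positivity)]
    nlinarith
  linarith

end coremain

end Pool.Agent.Helper72.BAP
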